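import Mathlib

set_option autoImplicit false

/-!
Equistable graphs.
-/

namespace Pool.Agent.H586R2.EQ

variable {V : Type}

/-- `S` is a stable set of `G`: its vertices are pairwise non-adjacent. -/
def IsStable (G : SimpleGraph V) (S : Finset V) : Prop := ∀ u ∈ S, ∀ v ∈ S, ¬ G.Adj u v

/-- `S` is a maximal stable set of `G`: no other stable set contains it. -/
def IsMaxStable (G : SimpleGraph V) (S : Finset V) : Prop :=
  IsStable G S ∧ ∀ S' : Finset V, IsStable G S' → S ⊆ S' → S' = S

/-- `G` is equistable: for some positive integer `t` and some weights `w`, the maximal stable sets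
are exactly the sets of weight `t`. -/
def Equistable (G : SimpleGraph V) : Prop :=
  ∃ (t : ℕ) (w : V → ℕ), 0 < t ∧ ∀ S : Finset V, IsMaxStable G S ↔ ∑ v ∈ S, w v = t

end Pool.Agent.H586R2.EQ
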