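import Mathlib
import Pool.Agent.H586R2.EQ.Defs

set_option autoImplicit false
set_option linter.unusedSectionVars false

namespace Pool.Agent.H586R2.EQ

open Finset

variable {V : Type} [Fintype V] [DecidableEq V] {G : SimpleGraph V}

theorem isMaxStable_iff {S : Finset V} : IsMaxStable G S ↔
    IsStable G S ∧ ∀ v, v ∉ S → ∃ u ∈ S, G.Adj u v := by
  constructor
  · rintro ⟨h1, h2⟩
    refine ⟨h1, fun v hv => ?_⟩
    by_contra hcon
    push Not at hcon
    have : IsStable G (insert v S) := by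
      intro a ha b hb hab
      rw [mem_insert] at ha hb
      rcases ha with rfl | ha <;> rcases hb with rfl | hb
      · exact hab.ne rfl
      · exact hcon b hb hab.symm
      · exact hcon a ha hab
      · exact h1 a ha b hb hab
    have := h2 _ this (subset_insert v S)
    exact hv (by rw [← this]; exact mem_insert_self v S)
  · rintro ⟨h1, h2⟩
    refine ⟨h1, fun S' hS' hsub => ?_⟩
    apply Subset.antisymm _ hsub
    intro v hv
    by_contra hv'
    obtain ⟨u, hu, huv⟩ := h2 v hv'
    exact hS' u (hsub hu) v hv huv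

theorem exists_maxStable {S : Finset V} (hS : IsStable G S) : ∃ S', S ⊆ S' ∧ IsMaxStable G S' := by
  classical
  obtain ⟨T, hT, hmax⟩ := exists_max_image
    (univ.filter (fun T : Finset V => IsStable G T ∧ S ⊆ T)) card
    ⟨S, by rw [mem_filter]; exact ⟨mem_univ _, hS, Subset.refl _⟩⟩
  rw [mem_filter] at hT
  refine ⟨T, hT.2.2, hT.2.1, fun S' hS' hsub => ?_⟩
  have := hmax S' (by rw [mem_filter]; exact ⟨mem_univ _, hS', hT.2.2.trans hsub⟩)
  exact (eq_of_subset_of_card_le hsub this).symm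

/-- Equistable graphs are triangle graphs. -/
theorem Equistable.triangle (hG : Equistable G) {S : Finset V} (hS : IsMaxStable G S) {u v : V}
    (hu : u ∉ S) (hv : v ∉ S) (huv : G.Adj u v) : ∃ s ∈ S, G.Adj s u ∧ G.Adj s v := by
  classical
  by_contra hcon
  push Not at hcon
  obtain ⟨t, w, _, hw⟩ := hG
  have hS' := isMaxStable_iff.1 hS
  set A := S.filter (fun s => G.Adj s u) with hA
  set B := S.filter (fun s => G.Adj s v) with hB
  have hAB : Disjoint A B := by
    rw [disjoint_left]
    intro x hx hy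
    rw [hA, mem_filter] at hx
    rw [hB, mem_filter] at hy
    exact hcon x hx.1 hx.2 hy.2
  have ext : ∀ z : V, z ∉ S → ∃ T : Finset V, IsMaxStable G T ∧ z ∈ T ∧
      T ∩ S = S \ S.filter (fun s => G.Adj s z) := by
    intro z hz
    have hst : IsStable G (insert z (S \ S.filter (fun s => G.Adj s z))) := by
      intro a ha b hb hab
      rw [mem_insert, mem_sdiff, mem_filter] at ha hb
      rcases ha with rfl | ha <;> rcases hb with rfl | hb
      · exact hab.ne rfl
      · exact hb.2 ⟨hb.1, hab.symm⟩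
      · exact ha.2 ⟨ha.1, hab⟩
      · exact hS'.1 a ha.1 b hb.1 hab
    obtain ⟨T, hT1, hT2⟩ := exists_maxStable hst
    refine ⟨T, hT2, hT1 (mem_insert_self _ _), ?_⟩
    ext x
    rw [mem_inter, mem_sdiff, mem_filter]
    constructor
    · rintro ⟨h1, h2⟩
      exact ⟨h2, fun h => hT2.1 x h1 z (hT1 (mem_insert_self _ _)) h.2⟩
    · rintro ⟨h1, h2⟩
      refine ⟨hT1 (mem_insert_of_mem ?_), h1⟩
      rw [mem_sdiff, mem_filter]
      exact ⟨h1, h2⟩
  obtain ⟨T, hT, huT, hTS⟩ := ext u hu
  obtain ⟨T', hT', hvT, hTS'⟩ := ext v hv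
  rw [← hA] at hTS
  rw [← hB] at hTS'
  have hAS : A ⊆ S := filter_subset _ _
  have hBS : B ⊆ S := filter_subset _ _
  have wS := (hw S).1 hS
  have wT := (hw T).1 hT
  have wT' := (hw T').1 hT'
  have e1 : ∑ x ∈ T \ S, w x = ∑ x ∈ A, w x := by
    have h1 : ∑ x ∈ T \ S, w x + ∑ x ∈ T ∩ S, w x = ∑ x ∈ T, w x := by
      rw [← sum_union (disjoint_sdiff_inter T S), sdiff_union_inter]
    have h2 := sum_sdiff hAS (f := w)
    rw [hTS] at h1
    omega
  have e2 : ∑ x ∈ T' \ S, w x = ∑ x ∈ B, w x := by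
    have h1 : ∑ x ∈ T' \ S, w x + ∑ x ∈ T' ∩ S, w x = ∑ x ∈ T', w x := by
      rw [← sum_union (disjoint_sdiff_inter T' S), sdiff_union_inter]
    have h2 := sum_sdiff hBS (f := w)
    rw [hTS'] at h1
    omega
  have hdisj : Disjoint (T \ S) (T' \ S) := by
    rw [disjoint_left]
    intro z hz hz'
    rw [mem_sdiff] at hz hz'
    obtain ⟨s, hs, hsz⟩ := hS'.2 z hz.2
    have h1 : s ∈ A := by
      by_contra h
      have : s ∈ T ∩ S := by rw [hTS, mem_sdiff]; exact ⟨hs, h⟩
      rw [mem_inter] at this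
      exact hT.1 s this.1 z hz.1 hsz
    have h2 : s ∈ B := by
      by_contra h
      have : s ∈ T' ∩ S := by rw [hTS', mem_sdiff]; exact ⟨hs, h⟩
      rw [mem_inter] at this
      exact hT'.1 s this.1 z hz'.1 hsz
    exact (disjoint_left.1 hAB h1) h2
  have hd2 : Disjoint ((T \ S) ∪ (T' \ S)) (S \ (A ∪ B)) := by
    rw [disjoint_left]
    intro z hz hz'
    rw [mem_union, mem_sdiff, mem_sdiff] at hz
    rw [mem_sdiff] at hz'
    rcases hz with hz | hz
    · exact hz.2 hz'.1
    · exact hz.2 hz'.1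
  have hfin : ∑ x ∈ ((T \ S) ∪ (T' \ S)) ∪ (S \ (A ∪ B)), w x = t := by
    rw [sum_union hd2, sum_union hdisj, e1, e2, ← sum_union hAB, add_comm,
      sum_sdiff (union_subset hAS hBS), wS]
  have hst := ((hw _).2 hfin).1
  refine hst u ?_ v ?_ huv
  · rw [mem_union, mem_union, mem_sdiff]; exact Or.inl (Or.inl ⟨huT, hu⟩)
  · rw [mem_union, mem_union, mem_sdiff, mem_sdiff]; exact Or.inl (Or.inr ⟨hvT, hv⟩)

/-- `K` is a strong clique: a clique that meets every maximal stable set. -/
def Strong (G : SimpleGraph V) (K : Finset V) : Prop :=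
  (∀ u ∈ K, ∀ v ∈ K, u ≠ v → G.Adj u v) ∧ ∀ S, IsMaxStable G S → ∃ v ∈ S, v ∈ K

theorem Strong.card_inter {K S : Finset V} (hK : Strong G K) (hS : IsMaxStable G S) :
    (S ∩ K).card = 1 := by
  obtain ⟨v, h1, h2⟩ := hK.2 S hS
  rw [card_eq_one]
  refine ⟨v, ?_⟩
  ext x
  rw [mem_inter, mem_singleton]
  constructor
  · rintro ⟨h3, h4⟩
    by_contra hne
    exact hS.1 x h3 v h1 (hK.1 x h4 v h2 hne)
  · rintro rfl
    exact ⟨h1, h2⟩

/-- uniqueness of base `B` digits -/
theorem digits_unique {B : ℕ} : ∀ (r : ℕ) (a b : ℕ → ℕ), (∀ i < r, a i < B) → (∀ i < r, b i < B) →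
    ∑ i ∈ range r, a i * B ^ i = ∑ i ∈ range r, b i * B ^ i → ∀ i < r, a i = b i := by
  intro r
  induction r with
  | zero => intro a b _ _ _ i hi; exact absurd hi (Nat.not_lt_zero i)
  | succ r ih =>
    intro a b ha hb h i hi
    rw [sum_range_succ', sum_range_succ'] at h
    have hB : 0 < B := lt_of_le_of_lt (Nat.zero_le _) (ha 0 (Nat.succ_pos r))
    have e : ∀ c : ℕ → ℕ, ∑ i ∈ range r, c (i + 1) * B ^ (i + 1) =
        B * ∑ i ∈ range r, c (i + 1) * B ^ i := by
      intro c
      rw [mul_sum]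
      refine sum_congr rfl (fun i _ => ?_)
      ring
    rw [e a, e b, pow_zero, mul_one, mul_one] at h
    have h0 : a 0 = b 0 := by
      have := congrArg (· % B) h
      simp only [Nat.mul_add_mod] at this
      rwa [Nat.mod_eq_of_lt (ha 0 (Nat.succ_pos r)), Nat.mod_eq_of_lt (hb 0 (Nat.succ_pos r))] at this
    rw [h0] at h
    have h1 := Nat.add_right_cancel h
    have h2 := Nat.eq_of_mul_eq_mul_left hB h1
    rcases i with _ | i
    · exact h0
    · exact ih (fun i => a (i + 1)) (fun i => b (i + 1)) (fun i hi => ha _ (by omega))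
        (fun i hi => hb _ (by omega)) h2 i (by omega)

/-- Graphs in which all vertices and edges are in strong cliques are equistable. -/
theorem equistable_of_strong [Nonempty V] (hv : ∀ v, ∃ K, Strong G K ∧ v ∈ K)
    (he : ∀ u v, G.Adj u v → ∃ K, Strong G K ∧ u ∈ K ∧ v ∈ K) : Equistable G := by
  classical
  set F : Finset (Finset V) := univ.filter (fun K => Strong G K) with hF
  set r := F.card with hr
  set e : Fin r ≃ F := F.equivFin.symm with hedef
  set K : ℕ → Finset V := fun i => if h : i < r then (e ⟨i, h⟩ : Finset V) else ∅ with hK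
  have hKs : ∀ i, i < r → Strong G (K i) := by
    intro i hi
    have : ∀ L ∈ F, Strong G L := fun L hL => by rw [hF, mem_filter] at hL; exact hL.2
    simp only [hK, dif_pos hi]
    exact this _ (e ⟨i, hi⟩).2
  have hKe : ∀ L, Strong G L → ∃ i, i < r ∧ K i = L := by
    intro L hL
    have hL' : L ∈ F := by rw [hF, mem_filter]; exact ⟨mem_univ _, hL⟩
    refine ⟨(e.symm ⟨L, hL'⟩ : Fin r), (e.symm ⟨L, hL'⟩).2, ?_⟩
    simp only [hK, dif_pos (e.symm ⟨L, hL'⟩).2]
    simp
  set B := Fintype.card V + 2 with hB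
  have hrpos : 0 < r := by
    obtain ⟨v⟩ := ‹Nonempty V›
    obtain ⟨L, hL, _⟩ := hv v
    obtain ⟨i, hi, _⟩ := hKe L hL
    omega
  have hsum : ∀ S : Finset V, ∑ v ∈ S, ∑ i ∈ range r, (if v ∈ K i then B ^ i else 0) =
      ∑ i ∈ range r, (S ∩ K i).card * B ^ i := by
    intro S
    rw [sum_comm]
    refine sum_congr rfl (fun i _ => ?_)
    rw [← sum_filter, sum_const, smul_eq_mul]
    have : S.filter (fun v => v ∈ K i) = S ∩ K i := by
      ext x
      rw [mem_filter, mem_inter]
    rw [this]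
  have hdig : ∀ S : Finset V, (∑ v ∈ S, ∑ i ∈ range r, (if v ∈ K i then B ^ i else 0) =
      ∑ i ∈ range r, 1 * B ^ i) ↔ ∀ i < r, (S ∩ K i).card = 1 := by
    intro S
    rw [hsum]
    constructor
    · intro h
      refine digits_unique r (fun i => (S ∩ K i).card) (fun _ => 1) (fun i _ => ?_)
        (fun i _ => ?_) h
      · have := card_le_univ (S ∩ K i)
        show (S ∩ K i).card < B
        omega
      · show 1 < B
        omega
    · intro h
      exact sum_congr rfl (fun i hi => by rw [h i (mem_range.1 hi)])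
  refine ⟨∑ i ∈ range r, 1 * B ^ i, fun v => ∑ i ∈ range r, (if v ∈ K i then B ^ i else 0), ?_, ?_⟩
  · refine sum_pos (fun i _ => ?_) ⟨0, mem_range.2 hrpos⟩
    rw [one_mul]
    exact pow_pos (by omega) i
  · intro S
    rw [hdig]
    constructor
    · intro hS i hi
      exact (hKs i hi).card_inter hS
    · intro h
      rw [isMaxStable_iff]
      constructor
      · intro u hu v hv' huv
        obtain ⟨L, hL, huL, hvL⟩ := he u v huv
        obtain ⟨i, hi, rfl⟩ := hKe L hL
        have := h i hi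
        rw [card_eq_one] at this
        obtain ⟨z, hz⟩ := this
        have h1 : u ∈ S ∩ K i := mem_inter.2 ⟨hu, huL⟩
        have h2 : v ∈ S ∩ K i := mem_inter.2 ⟨hv', hvL⟩
        rw [hz, mem_singleton] at h1 h2
        exact huv.ne (h1.trans h2.symm)
      · intro v hvS
        obtain ⟨L, hL, hvL⟩ := hv v
        obtain ⟨i, hi, rfl⟩ := hKe L hL
        have := h i hi
        rw [card_eq_one] at this
        obtain ⟨z, hz⟩ := this
        have h1 : z ∈ S ∩ K i := by rw [hz]; exact mem_singleton_self z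
        rw [mem_inter] at h1
        refine ⟨z, h1.1, (hKs i hi).1 z h1.2 v hvL ?_⟩
        rintro rfl
        exact hvS h1.1

end Pool.Agent.H586R2.EQ
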