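import Mathlib
import Pool.Agent.H586R2.EQ.Basic

set_option autoImplicit false
set_option linter.unusedSectionVars false

namespace Pool.Agent.H586R2.EQ

/-- negation of literals -/
def neg (l : Bool × ℕ) : Bool × ℕ := (!l.1, l.2)

theorem neg_neg (l : Bool × ℕ) : neg (neg l) = l := by
  unfold neg; rw [Bool.not_not]

theorem neg_ne (l : Bool × ℕ) : neg l ≠ l := by
  intro h
  have := congrArg Prod.fst h
  unfold neg at this
  cases h' : l.1 <;> simp [h'] at this

/-- vertices of the graph -/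
inductive Vx : Type
  | lit (l : Bool × ℕ) : Vx
  | cl (i : ℕ) : Vx
  | qv (i j : ℕ) (l : Bool × ℕ) : Vx

open Vx

variable (m : ℕ) (C : ℕ → Bool × ℕ → Prop)

/-- adjacency -/
def adj : Vx → Vx → Prop
  | lit l, lit l' => l' = neg l
  | lit l, cl j => C j l
  | cl j, lit l => C j l
  | cl i, cl j => i ≠ j
  | qv i _ _, cl k => k ≠ i
  | cl k, qv i _ _ => k ≠ i
  | qv i _ l, lit l' => l' = l ∨ C i l'
  | lit l', qv i _ l => l' = l ∨ C i l'
  | qv i _ l, qv k _ l' => i ≠ k ∨ l' = neg l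

/-- the actual vertices -/
def Mem : Vx → Prop
  | lit l => ∃ i < m, C i l
  | cl i => i < m
  | qv i j l => i < m ∧ j < m ∧ i ≠ j ∧ C j l ∧ ¬ C i (neg l)

theorem adj_symm : ∀ {x y : Vx}, adj C x y → adj C y x
  | lit l, lit l', h => by
    have h : l' = neg l := h
    show l = neg l'
    rw [h, neg_neg]
  | lit _, cl _, h => h
  | cl _, lit _, h => h
  | cl _, cl _, h => Ne.symm h
  | qv _ _ _, cl _, h => h
  | cl _, qv _ _ _, h => h
  | qv _ _ _, lit _, h => h
  | lit _, qv _ _ _, h => h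
  | qv i _ l, qv k _ l', h => by
    have h : i ≠ k ∨ l' = neg l := h
    show k ≠ i ∨ l = neg l'
    rcases h with h | h
    · exact Or.inl h.symm
    · exact Or.inr (by rw [h, neg_neg])

/-- maximal stable sets -/
structure MS (In : Vx → Prop) : Prop where
  mem : ∀ x, In x → Mem m C x
  st : ∀ x y, In x → In y → ¬ adj C x y
  mx : ∀ x, Mem m C x → ¬ In x → ∃ y, In y ∧ adj C x y

variable {m C}

section

variable {In : Vx → Prop} (h : MS m C In)

include h

theorem MS.cl_of_qv {i j : ℕ} {l : Bool × ℕ} (hq : In (qv i j l)) : In (cl i) := by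
  by_contra hcon
  obtain ⟨y, hy, ha⟩ := h.mx (cl i) (h.mem _ hq).1 hcon
  rcases y with l' | k | ⟨k, j', l'⟩
  · exact h.st _ _ hq hy (Or.inr ha)
  · exact h.st _ _ hq hy (Ne.symm ha)
  · exact h.st _ _ hq hy (Or.inl ha)

theorem MS.cl_unique {i k : ℕ} (hi : In (cl i)) (hk : In (cl k)) : i = k := by
  by_contra hne
  exact h.st _ _ hi hk hne

theorem MS.qv_blk {i k j : ℕ} {l : Bool × ℕ} (hi : In (cl i)) (hk : In (qv k j l)) : k = i :=
  (h.cl_unique (h.cl_of_qv hk) hi)

theorem MS.not_lit {i : ℕ} (hi : In (cl i)) {l : Bool × ℕ} (hl : C i l) : ¬ In (lit l) :=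
  fun hin => h.st _ _ hi hin hl

/-- (b) -/
theorem MS.lit_of_neg {i : ℕ} (hi : In (cl i)) {x : Bool × ℕ} (hx : C i (neg x))
    (hxi : ¬ C i x) (hm : Mem m C (lit x)) : In (lit x) := by
  by_contra hcon
  obtain ⟨y, hy, ha⟩ := h.mx _ hm hcon
  rcases y with l' | k | ⟨k, j', l'⟩
  · have ha : l' = neg x := ha
    subst ha
    exact h.not_lit hi hx hy
  · have := h.cl_unique hi hy
    subst this
    exact hxi ha
  · have := h.qv_blk hi hy
    subst this
    have ha : x = l' ∨ C k x := ha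
    rcases ha with rfl | ha
    · exact (h.mem _ hy).2.2.2.2 hx
    · exact hxi ha

/-- (c) -/
theorem MS.lit_or_qv {i j : ℕ} (hi : In (cl i)) {x : Bool × ℕ} (hm : Mem m C (qv i j x)) :
    In (lit x) ∨ In (qv i j x) := by
  by_contra hcon
  push Not at hcon
  obtain ⟨hx, hq⟩ := hcon
  obtain ⟨y, hy, ha⟩ := h.mx _ hm hq
  rcases y with l' | k | ⟨k, j', l'⟩
  · have ha : l' = x ∨ C i l' := ha
    rcases ha with rfl | ha
    · exact hx hy
    · exact h.not_lit hi ha hy
  · have := h.cl_unique hi hy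
    subst this
    exact ha rfl
  · have := h.qv_blk hi hy
    subst this
    have ha : k ≠ k ∨ l' = neg x := ha
    rcases ha with ha | ha
    · exact ha rfl
    · subst ha
      have hmem := h.mem _ hy
      have hxk : ¬ C k x := by
        have := hmem.2.2.2.2
        rwa [neg_neg] at this
      -- `lit x` is undominated
      obtain ⟨z, hz, hb⟩ := h.mx (lit x) ⟨j, hm.2.1, hm.2.2.2.1⟩ hx
      rcases z with l' | k' | ⟨k', j'', l'⟩
      · have hb : l' = neg x := hb
        subst hb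
        exact h.st _ _ hy hz (Or.inl rfl)
      · have := h.cl_unique hi hz
        subst this
        exact hxk hb
      · have := h.qv_blk hi hz
        subst this
        have hb : x = l' ∨ C k' x := hb
        rcases hb with rfl | hb
        · exact h.st _ _ hz hy (Or.inr rfl)
        · exact hxk hb

/-- (d) -/
theorem MS.lit_or_neg {i : ℕ} (hi : In (cl i)) {x : Bool × ℕ} (hnt : ¬ (C i x ∧ C i (neg x)))
    (hm : Mem m C (lit x)) (hm' : Mem m C (lit (neg x))) : In (lit x) ∨ In (lit (neg x)) := by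
  by_cases h1 : C i x
  · right
    refine h.lit_of_neg hi (by rw [neg_neg]; exact h1) (fun h2 => hnt ⟨h1, h2⟩) hm'
  · by_cases h2 : C i (neg x)
    · exact Or.inl (h.lit_of_neg hi h2 h1 hm)
    · by_contra hcon
      push Not at hcon
      obtain ⟨y, hy, ha⟩ := h.mx _ hm hcon.1
      obtain ⟨z, hz, hb⟩ := h.mx _ hm' hcon.2
      have key : ∀ (x : Bool × ℕ) (y : Vx), ¬ C i x → ¬ In (lit (neg x)) → In y →
          adj C (lit x) y → ∃ j, y = qv i j x := by
        intro x y hx hx' hy ha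
        rcases y with l' | k | ⟨k, j', l'⟩
        · have ha : l' = neg x := ha
          subst ha
          exact absurd hy hx'
        · have := h.cl_unique hi hy
          subst this
          exact absurd ha hx
        · have := h.qv_blk hi hy
          subst this
          have ha : x = l' ∨ C k x := ha
          rcases ha with rfl | ha
          · exact ⟨j', rfl⟩
          · exact absurd ha hx
      obtain ⟨j, rfl⟩ := key _ _ h1 hcon.2 hy ha
      obtain ⟨j', rfl⟩ := key _ _ h2 (by rw [neg_neg]; exact hcon.1) hz hb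
      exact h.st _ _ hy hz (Or.inr rfl)

/-- without clause vertices, the set is a satisfying assignment -/
theorem MS.exists_cl (hunsat : ¬ ∃ τ : ℕ → Bool, ∀ i < m, ∃ l, C i l ∧ τ l.2 = l.1) :
    ∃ i, In (cl i) := by
  classical
  by_contra hcon
  push Not at hcon
  apply hunsat
  refine ⟨fun v => decide (In (lit (true, v))), fun i hi => ?_⟩
  obtain ⟨y, hy, ha⟩ := h.mx (cl i) hi (hcon i)
  rcases y with l' | k | ⟨k, j', l'⟩
  · refine ⟨l', ha, ?_⟩
    obtain ⟨b, v⟩ := l'
    cases b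
    · simp only [decide_eq_false_iff_not]
      intro h'
      exact h.st _ _ h' hy rfl
    · simp only [decide_eq_true_eq]
      exact hy
  · exact absurd hy (hcon k)
  · exact absurd (h.cl_of_qv hy) (hcon k)

end

/-- cliques that meet all maximal stable sets -/
def Str (m : ℕ) (C : ℕ → Bool × ℕ → Prop) (K : Vx → Prop) : Prop :=
  (∀ x y, K x → K y → x ≠ y → adj C x y) ∧ ∀ In, MS m C In → ∃ x, In x ∧ K x

section Strong

variable (hunsat : ¬ ∃ τ : ℕ → Bool, ∀ i < m, ∃ l, C i l ∧ τ l.2 = l.1)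
  (hnt : ∀ i < m, ∀ l, ¬ (C i l ∧ C i (neg l)))
  (hneg : ∀ i < m, ∀ l, C i l → ∃ j < m, C j (neg l))

/-- the block of a vertex -/
def InBlk (i : ℕ) : Vx → Prop
  | lit _ => False
  | cl k => k = i
  | qv k _ _ => k = i

include hunsat hnt hneg

theorem str1 {x : Bool × ℕ} (hm : Mem m C (lit x)) :
    Str m C (fun y => y = lit x ∨ y = lit (neg x)) := by
  constructor
  · rintro a b (rfl | rfl) (rfl | rfl) hne
    · exact absurd rfl hne
    · rfl
    · show x = neg (neg x)
      rw [neg_neg]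
    · exact absurd rfl hne
  · intro In hIn
    obtain ⟨i, hi⟩ := hIn.exists_cl hunsat
    obtain ⟨k, hk, hkx⟩ := hm
    rcases hIn.lit_or_neg hi (hnt i (hIn.mem _ hi) x) ⟨k, hk, hkx⟩ (hneg k hk x hkx) with h | h
    · exact ⟨_, h, Or.inl rfl⟩
    · exact ⟨_, h, Or.inr rfl⟩

theorem str2 : Str m C (fun y => ∃ k < m, y = cl k) := by
  constructor
  · rintro a b ⟨k, hk, rfl⟩ ⟨k', hk', rfl⟩ hne
    show k ≠ k'
    rintro rfl
    exact hne rfl
  · intro In hIn
    obtain ⟨i, hi⟩ := hIn.exists_cl hunsat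
    exact ⟨_, hi, i, hIn.mem _ hi, rfl⟩

theorem str3 {j : ℕ} {x : Bool × ℕ} (hj : j < m) (hx : C j x) :
    Str m C (fun y => y = cl j ∨ y = lit x ∨ ∃ i, Mem m C (qv i j x) ∧ y = qv i j x) := by
  constructor
  · rintro a b (rfl | rfl | ⟨i, hi, rfl⟩) (rfl | rfl | ⟨i', hi', rfl⟩) hne
    · exact absurd rfl hne
    · exact hx
    · exact hi'.2.2.1.symm
    · exact hx
    · exact absurd rfl hne
    · exact Or.inl rfl
    · exact hi.2.2.1.symm
    · exact Or.inl rfl
    · left
      rintro rfl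
      exact hne rfl
  · intro In hIn
    obtain ⟨i, hi⟩ := hIn.exists_cl hunsat
    by_cases hij : i = j
    · subst hij
      exact ⟨_, hi, Or.inl rfl⟩
    · by_cases hx' : C i (neg x)
      · refine ⟨_, hIn.lit_of_neg hi hx' (fun h => hnt i (hIn.mem _ hi) x ⟨h, hx'⟩) ⟨j, hj, hx⟩,
          Or.inr (Or.inl rfl)⟩
      · have hm : Mem m C (qv i j x) := ⟨hIn.mem _ hi, hj, hij, hx, hx'⟩
        rcases hIn.lit_or_qv hi hm with h | h
        · exact ⟨_, h, Or.inr (Or.inl rfl)⟩
        · exact ⟨_, h, Or.inr (Or.inr ⟨i, hm, rfl⟩)⟩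

/-- `P` is a clique in the block `i` that is met whenever `cl i` is chosen. -/
def Part (m : ℕ) (C : ℕ → Bool × ℕ → Prop) (i : ℕ) (P : Vx → Prop) : Prop :=
  (∀ x, P x → Mem m C x ∧ InBlk i x) ∧ (∀ x y, P x → P y → x ≠ y → adj C x y) ∧
    ∀ In, MS m C In → In (cl i) → ∃ x, In x ∧ P x

omit hunsat hnt hneg in
theorem part_cl {i : ℕ} (hi : i < m) : Part m C i (fun y => y = cl i) := by
  refine ⟨?_, ?_, ?_⟩
  · rintro x rfl
    exact ⟨hi, rfl⟩
  · rintro x y rfl rfl hne
    exact absurd rfl hne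
  · intro In _ h
    exact ⟨_, h, rfl⟩

omit hunsat hnt hneg in
theorem part_two {i j j' : ℕ} {x : Bool × ℕ} (h1 : Mem m C (qv i j x))
    (h2 : Mem m C (qv i j' (neg x))) : Part m C i (fun y => y = qv i j x ∨ y = qv i j' (neg x)) := by
  refine ⟨?_, ?_, ?_⟩
  · rintro y (rfl | rfl)
    · exact ⟨h1, rfl⟩
    · exact ⟨h2, rfl⟩
  · rintro a b (rfl | rfl) (rfl | rfl) hne
    · exact absurd rfl hne
    · exact Or.inr rfl
    · exact Or.inr (neg_neg x).symm
    · exact absurd rfl hne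
  · intro In hIn hi
    rcases hIn.lit_or_qv hi h1 with h | h
    · rcases hIn.lit_or_qv hi h2 with h' | h'
      · exact absurd rfl (hIn.st _ _ h h')
      · exact ⟨_, h', Or.inr rfl⟩
    · exact ⟨_, h, Or.inl rfl⟩

omit hunsat hnt in
theorem exists_part {i j : ℕ} {x : Bool × ℕ} (h1 : Mem m C (qv i j x)) :
    ∃ P, Part m C i P ∧ P (qv i j x) := by
  by_cases hx : C i x
  · refine ⟨fun y => y = qv i j x, ⟨?_, ?_, ?_⟩, rfl⟩
    · rintro y rfl
      exact ⟨h1, rfl⟩
    · rintro a b rfl rfl hne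
      exact absurd rfl hne
    · intro In hIn hi
      rcases hIn.lit_or_qv hi h1 with h | h
      · exact absurd h (hIn.not_lit hi hx)
      · exact ⟨_, h, rfl⟩
  · obtain ⟨j', hj', hc⟩ := hneg j h1.2.1 x h1.2.2.2.1
    refine ⟨_, part_two h1 (j' := j') ⟨h1.1, hj', ?_, hc, by rwa [neg_neg]⟩, Or.inl rfl⟩
    rintro rfl
    exact h1.2.2.2.2 hc

omit hunsat hnt hneg in
theorem adj_blk {i k : ℕ} (hik : i ≠ k) {x y : Vx} (hx : InBlk i x) (hy : InBlk k y) :
    adj C x y := by
  rcases x with l | a | ⟨a, b, l⟩ <;> rcases y with l' | a' | ⟨a', b', l'⟩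
  · exact hx.elim
  · exact hx.elim
  · exact hx.elim
  · exact hy.elim
  · have hx : a = i := hx
    have hy : a' = k := hy
    show a ≠ a'
    rw [hx, hy]; exact hik
  · have hx : a = i := hx
    have hy : a' = k := hy
    show a ≠ a'
    rw [hx, hy]; exact hik
  · exact hy.elim
  · have hx : a = i := hx
    have hy : a' = k := hy
    show a' ≠ a
    rw [hx, hy]; exact hik.symm
  · have hx : a = i := hx
    have hy : a' = k := hy
    refine Or.inl ?_
    rw [hx, hy]; exact hik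

/-- unions of parts, one for each block -/
theorem str_parts (P : ℕ → Vx → Prop) (hP : ∀ i < m, Part m C i (P i)) :
    Str m C (fun y => ∃ i < m, P i y) := by
  constructor
  · rintro a b ⟨i, hi, ha⟩ ⟨k, hk, hb⟩ hne
    by_cases hik : i = k
    · subst hik
      exact (hP i hi).2.1 a b ha hb hne
    · exact adj_blk hik ((hP i hi).1 a ha).2 ((hP k hk).1 b hb).2
  · intro In hIn
    obtain ⟨i, hi⟩ := hIn.exists_cl hunsat
    obtain ⟨x, hx, hPx⟩ := (hP i (hIn.mem _ hi)).2.2 In hIn hi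
    exact ⟨x, hx, i, hIn.mem _ hi, hPx⟩

/-- two vertices of blocks are in a strong clique, if adjacent -/
theorem str_blk {i k : ℕ} {x y : Vx} (hi : i < m) (hk : k < m) (hik : i ≠ k)
    {P Q : Vx → Prop} (hP : Part m C i P) (hQ : Part m C k Q) (hPx : P x) (hQy : Q y) :
    ∃ K, Str m C K ∧ K x ∧ K y := by
  classical
  refine ⟨_, str_parts hunsat hnt hneg
    (fun a => if a = i then P else if a = k then Q else fun y => y = cl a) ?_, ⟨i, hi, ?_⟩,
    ⟨k, hk, ?_⟩⟩
  · intro a ha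
    by_cases h1 : a = i
    · subst h1
      simp only [if_true]
      exact hP
    · simp only [if_neg h1]
      by_cases h2 : a = k
      · subst h2
        simp only [if_true]
        exact hQ
      · simp only [if_neg h2]
        exact part_cl ha
  · simp only [if_true]
    exact hPx
  · simp only [if_neg hik.symm, if_true]
    exact hQy

theorem str_one {i : ℕ} {x : Vx} (hi : i < m) {P : Vx → Prop} (hP : Part m C i P) :
    ∃ K, Str m C K ∧ ∀ x, P x → K x := by
  classical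
  refine ⟨_, str_parts hunsat hnt hneg (fun a => if a = i then P else fun y => y = cl a) ?_,
    fun x hx => ⟨i, hi, ?_⟩⟩
  · intro a ha
    by_cases h1 : a = i
    · subst h1
      simp only [if_true]
      exact hP
    · simp only [if_neg h1]
      exact part_cl ha
  · simp only [if_true]
    exact hx

theorem str5 {i j : ℕ} {x y : Bool × ℕ} (h1 : Mem m C (qv i j x)) (hy : C i y) :
    ∃ K, Str m C K ∧ K (qv i j x) ∧ K (lit y) := by
  obtain ⟨P, hP, hPx⟩ := exists_part hneg h1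
  have hyn : ¬ C i (neg y) := fun h => hnt i h1.1 y ⟨hy, h⟩
  refine ⟨fun z => z = lit y ∨ P z ∨ ∃ k, Mem m C (qv k i y) ∧ z = qv k i y, ⟨?_, ?_⟩,
    Or.inr (Or.inl hPx), Or.inl rfl⟩
  · have hPy : ∀ z, P z → z ≠ cl i → adj C z (lit y) := by
      intro z hz hne
      rcases z with l | a | ⟨a, b, l⟩
      · exact ((hP.1 _ hz).2).elim
      · have : a = i := (hP.1 _ hz).2
        exact absurd (by rw [this]) hne
      · have : a = i := (hP.1 _ hz).2
        subst this
        exact Or.inr hy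
    have hPy' : ∀ z, P z → adj C z (lit y) := by
      intro z hz
      by_cases hne : z = cl i
      · subst hne
        exact hy
      · exact hPy z hz hne
    have hPq : ∀ z k, P z → Mem m C (qv k i y) → adj C z (qv k i y) := by
      intro z k hz hk
      exact adj_blk (k := k) (i := i) hk.2.2.1.symm (hP.1 _ hz).2 rfl
    rintro a b (rfl | ha | ⟨k, hk, rfl⟩) (rfl | hb | ⟨k', hk', rfl⟩) hne
    · exact absurd rfl hne
    · exact adj_symm C (hPy' b hb)
    · exact Or.inl rfl
    · exact hPy' a ha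
    · exact hP.2.1 a b ha hb hne
    · exact hPq a k' ha hk'
    · exact Or.inl rfl
    · exact adj_symm C (hPq b k hb hk)
    · left
      rintro rfl
      exact hne rfl
  · intro In hIn
    obtain ⟨k, hk⟩ := hIn.exists_cl hunsat
    by_cases hki : k = i
    · subst hki
      obtain ⟨z, hz, hPz⟩ := hP.2.2 In hIn hk
      exact ⟨z, hz, Or.inr (Or.inl hPz)⟩
    · by_cases hyk : C k (neg y)
      · exact ⟨_, hIn.lit_of_neg hk hyk (fun h => hnt k (hIn.mem _ hk) y ⟨h, hyk⟩) ⟨i, h1.1, hy⟩,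
          Or.inl rfl⟩
      · have hm : Mem m C (qv k i y) := ⟨hIn.mem _ hk, h1.1, hki, hy, hyk⟩
        rcases hIn.lit_or_qv hk hm with h | h
        · exact ⟨_, h, Or.inl rfl⟩
        · exact ⟨_, h, Or.inr (Or.inr ⟨k, hm, rfl⟩)⟩

/-- every vertex is in a strong clique -/
theorem str_vertex {x : Vx} (hx : Mem m C x) : ∃ K, Str m C K ∧ K x := by
  rcases x with l | i | ⟨i, j, l⟩
  · exact ⟨_, str1 hunsat hnt hneg hx, Or.inl rfl⟩
  · exact ⟨_, str2 hunsat hnt hneg, i, hx, rfl⟩
  · exact ⟨_, str3 hunsat hnt hneg hx.2.1 hx.2.2.2.1, Or.inr (Or.inr ⟨i, hx, rfl⟩)⟩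

theorem str_qv_cl {i j k : ℕ} {l : Bool × ℕ} (hq : Mem m C (qv i j l)) (hk : k < m)
    (hki : k ≠ i) : ∃ K, Str m C K ∧ K (qv i j l) ∧ K (cl k) := by
  obtain ⟨P, hP, hPx⟩ := exists_part hneg hq
  exact str_blk hunsat hnt hneg hq.1 hk hki.symm hP (part_cl hk) hPx rfl

theorem str_qv_lit {i j : ℕ} {l l' : Bool × ℕ} (hq : Mem m C (qv i j l))
    (h : l' = l ∨ C i l') : ∃ K, Str m C K ∧ K (qv i j l) ∧ K (lit l') := by
  rcases h with rfl | h
  · exact ⟨_, str3 hunsat hnt hneg hq.2.1 hq.2.2.2.1, Or.inr (Or.inr ⟨i, hq, rfl⟩),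
      Or.inr (Or.inl rfl)⟩
  · exact str5 hunsat hnt hneg hq h

/-- every edge is in a strong clique -/
theorem str_edge {x y : Vx} (hx : Mem m C x) (hy : Mem m C y) (hxy : adj C x y) :
    ∃ K, Str m C K ∧ K x ∧ K y := by
  rcases x with l | i | ⟨i, j, l⟩ <;> rcases y with l' | k | ⟨k, j', l'⟩
  · have hxy : l' = neg l := hxy
    subst hxy
    exact ⟨_, str1 hunsat hnt hneg hx, Or.inl rfl, Or.inr rfl⟩
  · exact ⟨_, str3 hunsat hnt hneg hy hxy, Or.inr (Or.inl rfl), Or.inl rfl⟩
  · obtain ⟨K, hK, h1, h2⟩ := str_qv_lit hunsat hnt hneg hy hxy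
    exact ⟨K, hK, h2, h1⟩
  · exact ⟨_, str3 hunsat hnt hneg hx hxy, Or.inl rfl, Or.inr (Or.inl rfl)⟩
  · exact ⟨_, str2 hunsat hnt hneg, ⟨i, hx, rfl⟩, ⟨k, hy, rfl⟩⟩
  · obtain ⟨K, hK, h1, h2⟩ := str_qv_cl hunsat hnt hneg hy hx hxy
    exact ⟨K, hK, h2, h1⟩
  · exact str_qv_lit hunsat hnt hneg hx hxy
  · exact str_qv_cl hunsat hnt hneg hx hy hxy
  · by_cases hik : i = k
    · subst hik
      have hxy : i ≠ i ∨ l' = neg l := hxy
      rcases hxy with hxy | hxy
      · exact absurd rfl hxy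
      · subst hxy
        obtain ⟨K, hK, h⟩ := str_one (x := cl 0) hunsat hnt hneg hx.1 (part_two hx hy)
        exact ⟨K, hK, h _ (Or.inl rfl), h _ (Or.inr rfl)⟩
    · obtain ⟨P, hP, hPx⟩ := exists_part hneg hx
      obtain ⟨Q, hQ, hQy⟩ := exists_part hneg hy
      exact str_blk hunsat hnt hneg hx.1 hy.1 hik hP hQ hPx hQy

end Strong

end Pool.Agent.H586R2.EQ
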