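import Mathlib
import Pool.Agent.H586R2.EQ.Defs

set_option autoImplicit false

/-!
Graphs given by adjacency matrices.
-/

namespace Pool.Agent.H586R2.EQ

/-- A graph on the vertices `0, …, n-1`, given by its `n × n` adjacency matrix. -/
abbrev Mat : Type := List (List Bool)

namespace Mat

/-- The entry of the adjacency matrix in row `u` and column `v`. -/
def entry (M : Mat) (u v : ℕ) : Bool := (M.getD u []).getD v false

/-- The matrix is square and symmetric with zero diagonal. -/
def Valid (M : Mat) : Prop :=
  (∀ row ∈ M, row.length = M.length) ∧
    (∀ u < M.length, ∀ v < M.length, M.entry u v = M.entry v u) ∧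
    (∀ u < M.length, M.entry u u = false)

/-- The graph of the matrix. -/
def graph (M : Mat) : SimpleGraph (Fin M.length) :=
  SimpleGraph.fromRel (fun u v => M.entry u v = true)

end Mat

end Pool.Agent.H586R2.EQ
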