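import Mathlib
import Pool.Agent.H586R2.EQ.Core

set_option autoImplicit false
set_option linter.unusedSectionVars false

namespace Pool.Agent.H586R2.EQ

open Vx Finset

variable {m : ℕ} {C : ℕ → Bool × ℕ → Prop}
variable {V : Type} [Fintype V] [DecidableEq V] {G : SimpleGraph V} {d : V → Vx}
  (hinj : Function.Injective d) (hmem : ∀ v, Mem m C (d v)) (hex : ∀ x, Mem m C x → ∃ v, d v = x)
  (hadj : ∀ u v, G.Adj u v ↔ adj C (d u) (d v))

include hinj hmem hex hadj

theorem ms_of {S : Finset V} (hS : IsMaxStable G S) : MS m C (fun x => ∃ v ∈ S, d v = x) := by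
  rw [isMaxStable_iff] at hS
  refine ⟨?_, ?_, ?_⟩
  · rintro x ⟨v, _, rfl⟩
    exact hmem v
  · rintro x y ⟨u, hu, rfl⟩ ⟨v, hv, rfl⟩ h
    exact hS.1 u hu v hv ((hadj u v).2 h)
  · intro x hx hnot
    obtain ⟨v, rfl⟩ := hex x hx
    obtain ⟨u, hu, huv⟩ := hS.2 v (fun hv => hnot ⟨v, hv, rfl⟩)
    exact ⟨d u, ⟨u, hu, rfl⟩, (hadj v u).1 huv.symm⟩

theorem strong_of {K : Vx → Prop} (hK : Str m C K) [DecidablePred K] :
    Strong G (univ.filter (fun v => K (d v))) := by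
  constructor
  · intro u hu v hv hne
    rw [mem_filter] at hu hv
    exact (hadj u v).2 (hK.1 _ _ hu.2 hv.2 (fun h => hne (hinj h)))
  · intro S hS
    obtain ⟨x, ⟨v, hv, hvx⟩, hx⟩ := hK.2 _ (ms_of hinj hmem hex hadj hS)
    exact ⟨v, hv, by rw [mem_filter]; exact ⟨mem_univ _, by rw [hvx]; exact hx⟩⟩

theorem equistable_of_unsat [Nonempty V]
    (hunsat : ¬ ∃ τ : ℕ → Bool, ∀ i < m, ∃ l, C i l ∧ τ l.2 = l.1)
    (hnt : ∀ i < m, ∀ l, ¬ (C i l ∧ C i (neg l)))
    (hneg : ∀ i < m, ∀ l, C i l → ∃ j < m, C j (neg l)) : Equistable G := by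
  classical
  refine equistable_of_strong (fun v => ?_) (fun u v huv => ?_)
  · obtain ⟨K, hK, hv⟩ := str_vertex hunsat hnt hneg (hmem v)
    exact ⟨_, strong_of hinj hmem hex hadj hK, by rw [mem_filter]; exact ⟨mem_univ _, hv⟩⟩
  · obtain ⟨K, hK, hu, hv⟩ := str_edge hunsat hnt hneg (hmem u) (hmem v) ((hadj u v).1 huv)
    exact ⟨_, strong_of hinj hmem hex hadj hK, by rw [mem_filter]; exact ⟨mem_univ _, hu⟩,
      by rw [mem_filter]; exact ⟨mem_univ _, hv⟩⟩

theorem not_equistable_of_sat {τ : ℕ → Bool} (hτ : ∀ i < m, ∃ l, C i l ∧ τ l.2 = l.1)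
    (hneg : ∀ i < m, ∀ l, C i l → ∃ j < m, C j (neg l)) {a b : ℕ} (ha : a < m) (hb : b < m)
    (hab : a ≠ b) (hno : ∀ l, ¬ (C a l ∧ C b l)) : ¬ Equistable G := by
  classical
  intro hE
  set T : Vx → Prop := fun x => ∃ l : Bool × ℕ, x = lit l ∧ τ l.2 = l.1 with hT
  set S : Finset V := univ.filter (fun v => T (d v)) with hS
  have hmS : ∀ v, v ∈ S ↔ ∃ l : Bool × ℕ, d v = lit l ∧ τ l.2 = l.1 := by
    intro v
    rw [hS, mem_filter]
    exact ⟨fun h => h.2, fun h => ⟨mem_univ _, h⟩⟩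
  have hlit : ∀ l : Bool × ℕ, (∃ i < m, C i l) → τ l.2 = l.1 → ∃ v ∈ S, d v = lit l := by
    intro l hl hτl
    obtain ⟨v, hv⟩ := hex (lit l) hl
    exact ⟨v, (hmS v).2 ⟨l, hv, hτl⟩, hv⟩
  have hmax : IsMaxStable G S := by
    rw [isMaxStable_iff]
    constructor
    · intro u hu v hv huv
      rw [hmS] at hu hv
      obtain ⟨l, hl, hτl⟩ := hu
      obtain ⟨l', hl', hτl'⟩ := hv
      rw [hadj, hl, hl'] at huv
      have huv : l' = neg l := huv
      subst huv
      unfold neg at hτl'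
      simp only at hτl'
      rw [hτl] at hτl'
      cases h : l.1 <;> simp [h] at hτl'
    · intro v hv
      have dom : ∀ i < m, (∀ l, C i l → adj C (lit l) (d v)) → ∃ u ∈ S, G.Adj u v := by
        intro i hi h
        obtain ⟨l, hl, hτl⟩ := hτ i hi
        obtain ⟨u, hu, hul⟩ := hlit l ⟨i, hi, hl⟩ hτl
        exact ⟨u, hu, by rw [hadj, hul]; exact h l hl⟩
      cases hdv : d v with
      | lit l =>
        have hne : τ l.2 ≠ l.1 := fun h => hv ((hmS v).2 ⟨l, hdv, h⟩)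
        have hm := hmem v
        rw [hdv] at hm
        obtain ⟨i, hi, hl⟩ := hm
        obtain ⟨j, hj, hl'⟩ := hneg i hi l hl
        obtain ⟨u, hu, hul⟩ := hlit (neg l) ⟨j, hj, hl'⟩ (by
          unfold neg
          simp only
          cases h1 : τ l.2 <;> cases h2 : l.1 <;> simp [h1, h2] at hne ⊢)
        refine ⟨u, hu, ?_⟩
        rw [hadj, hul, hdv]
        exact (neg_neg l).symm
      | cl i =>
        have hm := hmem v
        rw [hdv] at hm
        refine dom i hm (fun l hl => ?_)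
        rw [hdv]
        exact hl
      | qv i j l' =>
        have hm := hmem v
        rw [hdv] at hm
        refine dom i hm.1 (fun l hl => ?_)
        rw [hdv]
        exact Or.inr hl
  obtain ⟨u, hu⟩ := hex (cl a) ha
  obtain ⟨v, hv⟩ := hex (cl b) hb
  have hcl : ∀ v i, d v = cl i → v ∉ S := by
    intro v i hv h
    rw [hmS] at h
    obtain ⟨l, hl, _⟩ := h
    rw [hv] at hl
    exact Vx.noConfusion hl
  obtain ⟨s, hs, h1, h2⟩ := hE.triangle hmax (hcl u a hu) (hcl v b hv)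
    (by rw [hadj, hu, hv]; exact hab)
  rw [hmS] at hs
  obtain ⟨l, hl, _⟩ := hs
  rw [hadj, hl, hu] at h1
  rw [hadj, hl, hv] at h2
  exact hno l ⟨h1, h2⟩

end Pool.Agent.H586R2.EQ
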