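import Mathlib
import Pool.Agent.H586R2.EQ.Model
import Pool.Agent.H586R2.EQ.Inst

set_option autoImplicit false
set_option linter.unusedSectionVars false

namespace Pool.Agent.H586R2.EQ

open Vx

/-- formulas with three literals in each clause -/
abbrev F3 : Type := List ((Bool × ℕ) × (Bool × ℕ) × (Bool × ℕ))

/-- satisfiability -/
def IsSat3 (φ : F3) : Prop :=
  ∃ τ : ℕ → Bool, ∀ c ∈ φ, τ c.1.2 = c.1.1 ∨ τ c.2.1.2 = c.2.1.1 ∨ τ c.2.2.2 = c.2.2.1

/-- three different variables in each clause, and few variables -/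
def Nice (φ : F3) : Prop :=
  ∀ c ∈ φ, (c.1.2 ≠ c.2.1.2 ∧ c.1.2 ≠ c.2.2.2 ∧ c.2.1.2 ≠ c.2.2.2) ∧
    (c.1.2 < 3 * φ.length ∧ c.2.1.2 < 3 * φ.length ∧ c.2.2.2 < 3 * φ.length)

/-- three copies of the formula -/
def tri (φ : F3) : F3 := φ ++ φ ++ φ

theorem length_tri (φ : F3) : (tri φ).length = 3 * φ.length := by
  unfold tri; rw [List.length_append, List.length_append]; omega

/-- the extended list of clauses -/
def ext (φ : F3) : List (List (Bool × ℕ)) :=
  [[(false, 0), (true, 1)], [(false, 1), (true, 0)]] ++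
    (List.range (tri φ).length).flatMap
      (fun v => [[(true, v + 2), (true, 0)], [(false, v + 2), (true, 0)]]) ++
    φ.map (fun c => [(c.1.1, c.1.2 + 2), (c.2.1.1, c.2.1.2 + 2), (c.2.2.1, c.2.2.2 + 2)])

theorem mem_ext {φ : F3} {c : List (Bool × ℕ)} : c ∈ ext φ ↔
    c = [(false, 0), (true, 1)] ∨ c = [(false, 1), (true, 0)] ∨
    (∃ v < 3 * φ.length, c = [(true, v + 2), (true, 0)] ∨ c = [(false, v + 2), (true, 0)]) ∨
    (∃ d ∈ φ, c = [(d.1.1, d.1.2 + 2), (d.2.1.1, d.2.1.2 + 2), (d.2.2.1, d.2.2.2 + 2)]) := by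
  simp only [ext, List.mem_append, List.mem_flatMap, List.mem_map, List.mem_cons, List.not_mem_nil,
    or_false, List.mem_range, length_tri]
  constructor
  · rintro (((h | h) | h) | ⟨d, hd, h⟩)
    · exact Or.inl h
    · exact Or.inr (Or.inl h)
    · exact Or.inr (Or.inr (Or.inl h))
    · exact Or.inr (Or.inr (Or.inr ⟨d, hd, h.symm⟩))
  · rintro (h | h | h | ⟨d, hd, h⟩)
    · exact Or.inl (Or.inl (Or.inl h))
    · exact Or.inl (Or.inl (Or.inr h))
    · exact Or.inl (Or.inr h)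
    · exact Or.inr ⟨d, hd, h.symm⟩

/-- the literal `l` is in the `j`-th clause -/
def InC (φ : F3) (j : ℕ) (l : Bool × ℕ) : Prop := l ∈ (ext φ).getD j []

instance (φ : F3) (j : ℕ) (l : Bool × ℕ) : Decidable (InC φ j l) := by
  unfold InC; infer_instance

theorem getD_mem {φ : F3} {j : ℕ} (hj : j < (ext φ).length) : (ext φ).getD j [] ∈ ext φ := by
  have : (ext φ).getD j [] = (ext φ)[j] := by simp [List.getD, hj]
  rw [this]
  exact List.getElem_mem hj

theorem exists_getD {φ : F3} {c : List (Bool × ℕ)} (hc : c ∈ ext φ) :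
    ∃ j < (ext φ).length, (ext φ).getD j [] = c := by
  obtain ⟨j, hj, h⟩ := List.getElem_of_mem hc
  exact ⟨j, hj, by simp [List.getD, hj, h]⟩

theorem vars_nodup {φ : F3} (hφ : Nice φ) {c : List (Bool × ℕ)} (hc : c ∈ ext φ) :
    (c.map Prod.snd).Nodup := by
  rw [mem_ext] at hc
  rcases hc with rfl | rfl | ⟨v, hv, rfl | rfl⟩ | ⟨d, hd, rfl⟩
  · simp
  · simp
  · simp
  · simp
  · have := (hφ d hd).1
    simp only [List.map_cons, List.map_nil, List.nodup_cons, List.mem_cons, List.not_mem_nil,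
      or_false, not_false_eq_true, List.nodup_nil, and_true]
    omega

theorem clause_nodup {φ : F3} (hφ : Nice φ) {c : List (Bool × ℕ)} (hc : c ∈ ext φ) : c.Nodup :=
  (vars_nodup hφ hc).of_map _

theorem nt {φ : F3} (hφ : Nice φ) : ∀ i < (ext φ).length, ∀ l, ¬ (InC φ i l ∧ InC φ i (neg l)) := by
  rintro i hi l ⟨h1, h2⟩
  have hn := vars_nodup hφ (getD_mem hi)
  exact neg_ne l (List.inj_on_of_nodup_map hn h2 h1 rfl)

theorem occurs_iff {φ : F3} (hφ : Nice φ) (l : Bool × ℕ) :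
    (∃ i < (ext φ).length, InC φ i l) ↔ l.2 < 3 * φ.length + 2 := by
  constructor
  · rintro ⟨i, hi, h⟩
    have hc := getD_mem hi
    unfold InC at h
    rw [mem_ext] at hc
    rcases hc with hc | hc | ⟨v, hv, hc | hc⟩ | ⟨d, hd, hc⟩ <;> rw [hc] at h <;>
      simp only [List.mem_cons, List.not_mem_nil, or_false] at h
    · rcases h with rfl | rfl <;> simp
    · rcases h with rfl | rfl <;> simp
    · rcases h with rfl | rfl
      · simp only; omega
      · simp
    · rcases h with rfl | rfl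
      · simp only; omega
      · simp
    · have := (hφ d hd).2
      rcases h with rfl | rfl | rfl <;> simp only <;> omega
  · intro h
    have key : ∃ c ∈ ext φ, l ∈ c := by
      obtain ⟨b, v⟩ := l
      simp only at h
      rcases v with _ | _ | v
      · cases b
        · exact ⟨_, mem_ext.2 (Or.inl rfl), by simp⟩
        · exact ⟨_, mem_ext.2 (Or.inr (Or.inl rfl)), by simp⟩
      · cases b
        · exact ⟨_, mem_ext.2 (Or.inr (Or.inl rfl)), by simp⟩
        · exact ⟨_, mem_ext.2 (Or.inl rfl), by simp⟩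
      · cases b
        · exact ⟨_, mem_ext.2 (Or.inr (Or.inr (Or.inl ⟨v, by omega, Or.inr rfl⟩))), by simp⟩
        · exact ⟨_, mem_ext.2 (Or.inr (Or.inr (Or.inl ⟨v, by omega, Or.inl rfl⟩))), by simp⟩
    obtain ⟨c, hc, hl⟩ := key
    obtain ⟨j, hj, hjc⟩ := exists_getD hc
    exact ⟨j, hj, by unfold InC; rw [hjc]; exact hl⟩

theorem sat_iff (φ : F3) : (∃ τ : ℕ → Bool, ∀ i < (ext φ).length, ∃ l, InC φ i l ∧ τ l.2 = l.1) ↔
    IsSat3 φ := by
  constructor
  · rintro ⟨τ, hτ⟩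
    refine ⟨fun v => τ (v + 2), fun d hd => ?_⟩
    obtain ⟨j, hj, hjc⟩ := exists_getD (mem_ext.2 (Or.inr (Or.inr (Or.inr ⟨d, hd, rfl⟩))))
    obtain ⟨l, hl, h⟩ := hτ j hj
    unfold InC at hl
    rw [hjc] at hl
    simp only [List.mem_cons, List.not_mem_nil, or_false] at hl
    rcases hl with rfl | rfl | rfl
    · exact Or.inl h
    · exact Or.inr (Or.inl h)
    · exact Or.inr (Or.inr h)
  · rintro ⟨τ, hτ⟩
    refine ⟨fun v => match v with
      | 0 => true
      | 1 => true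
      | v + 2 => τ v, fun i hi => ?_⟩
    have hc := getD_mem hi
    unfold InC
    rw [mem_ext] at hc
    rcases hc with hc | hc | ⟨v, hv, hc | hc⟩ | ⟨d, hd, hc⟩ <;> rw [hc]
    · exact ⟨(true, 1), by simp, rfl⟩
    · exact ⟨(true, 0), by simp, rfl⟩
    · exact ⟨(true, 0), by simp, rfl⟩
    · exact ⟨(true, 0), by simp, rfl⟩
    · rcases hτ d hd with h | h | h
      · exact ⟨(d.1.1, d.1.2 + 2), by simp, h⟩
      · exact ⟨(d.2.1.1, d.2.1.2 + 2), by simp, h⟩
      · exact ⟨(d.2.2.1, d.2.2.2 + 2), by simp, h⟩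

theorem neg_occurs {φ : F3} (hφ : Nice φ) :
    ∀ i < (ext φ).length, ∀ l, InC φ i l → ∃ j < (ext φ).length, InC φ j (neg l) := by
  intro i hi l hl
  exact (occurs_iff hφ (neg l)).2 ((occurs_iff hφ l).1 ⟨i, hi, hl⟩)

theorem two_clauses (φ : F3) : 0 < (ext φ).length ∧ 1 < (ext φ).length ∧
    ∀ l, ¬ (InC φ 0 l ∧ InC φ 1 l) := by
  have h : 2 ≤ (ext φ).length := by
    unfold ext
    rw [List.length_append, List.length_append]
    simp only [List.length_cons, List.length_nil]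
    omega
  refine ⟨by omega, by omega, ?_⟩
  rintro l ⟨h1, h2⟩
  have e0 : (ext φ).getD 0 [] = [(false, 0), (true, 1)] := rfl
  have e1 : (ext φ).getD 1 [] = [(false, 1), (true, 0)] := rfl
  unfold InC at h1 h2
  rw [e0] at h1
  rw [e1] at h2
  simp only [List.mem_cons, List.not_mem_nil, or_false] at h1 h2
  rcases h1 with rfl | rfl <;> rcases h2 with h | h <;> simp at h

/-- descriptors of vertices -/
abbrev D : Type := ℕ × ℕ × ℕ × (Bool × ℕ)

/-- the vertex described -/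
def toVx (a : D) : Vx :=
  if a.1 = 0 then lit a.2.2.2 else if a.1 = 1 then cl a.2.1 else qv a.2.1 a.2.2.1 a.2.2.2

/-- the list of all vertices -/
def glist (φ : F3) : List D :=
  (List.range ((tri φ).length + 2)).flatMap
      (fun v => [((0, 0, 0, (false, v)) : D), (0, 0, 0, (true, v))]) ++
    (List.range (ext φ).length).map (fun i => ((1, i, 0, (false, 0)) : D)) ++
    (List.range (ext φ).length).flatMap (fun i => (List.range (ext φ).length).flatMap (fun j =>
      (((ext φ).getD j []).filter (fun l => decide (i ≠ j ∧ ¬ InC φ i (neg l)))).map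
        (fun l => ((2, i, j, l) : D))))

theorem mem_glist {φ : F3} {a : D} : a ∈ glist φ ↔
    (∃ l : Bool × ℕ, l.2 < 3 * φ.length + 2 ∧ a = (0, 0, 0, l)) ∨
    (∃ i < (ext φ).length, a = (1, i, 0, (false, 0))) ∨
    (∃ i j l, i < (ext φ).length ∧ j < (ext φ).length ∧ i ≠ j ∧ InC φ j l ∧ ¬ InC φ i (neg l) ∧
      a = (2, i, j, l)) := by
  simp only [glist, List.mem_append, List.mem_flatMap, List.mem_map, List.mem_filter,
    List.mem_range, List.mem_cons, List.not_mem_nil, or_false, decide_eq_true_eq, length_tri]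
  constructor
  · rintro ((⟨v, hv, h | h⟩ | ⟨i, hi, h⟩) | ⟨i, hi, j, hj, l, ⟨h1, h2, h3⟩, h⟩)
    · exact Or.inl ⟨(false, v), hv, h⟩
    · exact Or.inl ⟨(true, v), hv, h⟩
    · exact Or.inr (Or.inl ⟨i, hi, h.symm⟩)
    · exact Or.inr (Or.inr ⟨i, j, l, hi, hj, h2, h1, h3, h.symm⟩)
  · rintro (⟨⟨b, v⟩, hv, h⟩ | ⟨i, hi, h⟩ | ⟨i, j, l, hi, hj, h2, h1, h3, h⟩)
    · cases b
      · exact Or.inl (Or.inl ⟨v, hv, Or.inl h⟩)
      · exact Or.inl (Or.inl ⟨v, hv, Or.inr h⟩)
    · exact Or.inl (Or.inr ⟨i, hi, h.symm⟩)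
    · exact Or.inr ⟨i, hi, j, hj, l, ⟨h1, h2, h3⟩, h.symm⟩

theorem nodup_glist {φ : F3} (hφ : Nice φ) : (glist φ).Nodup := by
  unfold glist
  rw [List.nodup_append, List.nodup_append]
  refine ⟨⟨?_, ?_, ?_⟩, ?_, ?_⟩
  · rw [List.nodup_flatMap]
    constructor
    · intro v _
      simp
    · refine List.nodup_range.imp ?_
      intro x y hne
      simp only [Function.onFun, List.Disjoint]
      intro a ha hb
      simp only [List.mem_cons, List.not_mem_nil, or_false] at ha hb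
      rcases ha with rfl | rfl <;> rcases hb with h | h <;> simp only [Prod.mk.injEq] at h <;>
        exact hne h.2.2.2.2
  · refine List.Nodup.map ?_ List.nodup_range
    intro a b h
    simpa using h
  · rintro a ha b hb rfl
    simp only [List.mem_map, List.mem_flatMap, List.mem_cons, List.not_mem_nil, or_false] at ha hb
    obtain ⟨v, _, h | h⟩ := ha <;> obtain ⟨i, _, h'⟩ := hb <;> rw [h] at h' <;> simp at h'
  · rw [List.nodup_flatMap]
    constructor
    · intro i _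
      rw [List.nodup_flatMap]
      constructor
      · intro j hj
        rw [List.mem_range] at hj
        refine List.Nodup.map ?_ ((clause_nodup hφ (getD_mem hj)).filter _)
        intro a b h
        simp only [Prod.mk.injEq] at h
        exact h.2.2.2
      · refine List.nodup_range.imp ?_
        intro x y hne
        simp only [Function.onFun, List.Disjoint]
        intro a ha hb
        rw [List.mem_map] at ha hb
        obtain ⟨l, _, rfl⟩ := ha
        obtain ⟨l', _, h⟩ := hb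
        simp only [Prod.mk.injEq] at h
        exact hne h.2.2.1.symm
    · refine List.nodup_range.imp ?_
      intro x y hne
      simp only [Function.onFun, List.Disjoint]
      intro a ha hb
      rw [List.mem_flatMap] at ha hb
      obtain ⟨j, _, ha⟩ := ha
      obtain ⟨j', _, hb⟩ := hb
      rw [List.mem_map] at ha hb
      obtain ⟨l, _, rfl⟩ := ha
      obtain ⟨l', _, h⟩ := hb
      simp only [Prod.mk.injEq] at h
      exact hne h.2.1.symm
  · rintro a ha b hb rfl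
    simp only [List.mem_append, List.mem_map, List.mem_flatMap, List.mem_cons, List.not_mem_nil,
      or_false] at ha hb
    obtain ⟨i', _, j', _, l', _, hb⟩ := hb
    rcases ha with ⟨v, _, h | h⟩ | ⟨i, _, h⟩
    · rw [h] at hb; simp at hb
    · rw [h] at hb; simp at hb
    · rw [← h] at hb; simp at hb

/-- adjacency, on descriptors -/
def adjD (φ : F3) (a b : D) : Prop :=
  (a.1 = 0 ∧ b.1 = 0 ∧ b.2.2.2 = neg a.2.2.2) ∨
  (a.1 = 0 ∧ b.1 = 1 ∧ InC φ b.2.1 a.2.2.2) ∨
  (a.1 = 1 ∧ b.1 = 0 ∧ InC φ a.2.1 b.2.2.2) ∨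
  (a.1 = 1 ∧ b.1 = 1 ∧ a.2.1 ≠ b.2.1) ∨
  (a.1 = 2 ∧ b.1 = 1 ∧ b.2.1 ≠ a.2.1) ∨
  (a.1 = 1 ∧ b.1 = 2 ∧ a.2.1 ≠ b.2.1) ∨
  (a.1 = 2 ∧ b.1 = 0 ∧ (b.2.2.2 = a.2.2.2 ∨ InC φ a.2.1 b.2.2.2)) ∨
  (a.1 = 0 ∧ b.1 = 2 ∧ (a.2.2.2 = b.2.2.2 ∨ InC φ b.2.1 a.2.2.2)) ∨
  (a.1 = 2 ∧ b.1 = 2 ∧ (a.2.1 ≠ b.2.1 ∨ b.2.2.2 = neg a.2.2.2))

instance (φ : F3) (a b : D) : Decidable (adjD φ a b) := by unfold adjD; infer_instance

theorem tag_cases {φ : F3} {a : D} (ha : a ∈ glist φ) : a.1 = 0 ∨ a.1 = 1 ∨ a.1 = 2 := by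
  rw [mem_glist] at ha
  rcases ha with ⟨l, _, rfl⟩ | ⟨i, _, rfl⟩ | ⟨i, j, l, _, _, _, _, _, rfl⟩
  · exact Or.inl rfl
  · exact Or.inr (Or.inl rfl)
  · exact Or.inr (Or.inr rfl)

theorem adjD_iff {φ : F3} {a b : D} (ha : a ∈ glist φ) (hb : b ∈ glist φ) :
    adjD φ a b ↔ adj (InC φ) (toVx a) (toVx b) := by
  obtain ⟨ta, ia, ja, la⟩ := a
  obtain ⟨tb, ib, jb, lb⟩ := b
  have h1 := tag_cases ha
  have h2 := tag_cases hb
  simp only at h1 h2
  rcases h1 with rfl | rfl | rfl <;> rcases h2 with rfl | rfl | rfl <;>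
    simp [adjD, toVx, adj]

theorem toVx_inj {φ : F3} {a b : D} (ha : a ∈ glist φ) (hb : b ∈ glist φ)
    (h : toVx a = toVx b) : a = b := by
  rw [mem_glist] at ha hb
  rcases ha with ⟨l, _, rfl⟩ | ⟨i, _, rfl⟩ | ⟨i, j, l, _, _, _, _, _, rfl⟩ <;>
    rcases hb with ⟨l', _, rfl⟩ | ⟨i', _, rfl⟩ | ⟨i', j', l', _, _, _, _, _, rfl⟩ <;>
    simp [toVx] at h ⊢
  · exact h
  · exact h
  · exact h

theorem mem_toVx {φ : F3} (hφ : Nice φ) {a : D} (ha : a ∈ glist φ) :
    Mem (ext φ).length (InC φ) (toVx a) := by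
  rw [mem_glist] at ha
  rcases ha with ⟨l, hl, rfl⟩ | ⟨i, hi, rfl⟩ | ⟨i, j, l, h1, h2, h3, h4, h5, rfl⟩
  · exact (occurs_iff hφ l).2 hl
  · exact hi
  · exact ⟨h1, h2, h3, h4, h5⟩

theorem exists_toVx {φ : F3} (hφ : Nice φ) {x : Vx} (hx : Mem (ext φ).length (InC φ) x) :
    ∃ a ∈ glist φ, toVx a = x := by
  rcases x with l | i | ⟨i, j, l⟩
  · exact ⟨(0, 0, 0, l), mem_glist.2 (Or.inl ⟨l, (occurs_iff hφ l).1 hx, rfl⟩), rfl⟩
  · exact ⟨(1, i, 0, (false, 0)), mem_glist.2 (Or.inr (Or.inl ⟨i, hx, rfl⟩)), rfl⟩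
  · exact ⟨(2, i, j, l), mem_glist.2 (Or.inr (Or.inr ⟨i, j, l, hx.1, hx.2.1, hx.2.2.1, hx.2.2.2.1,
      hx.2.2.2.2, rfl⟩)), rfl⟩

/-- the reduction -/
def red (φ : F3) : Mat := (glist φ).map (fun a => (glist φ).map (fun b => decide (adjD φ a b)))

theorem length_red (φ : F3) : (red φ).length = (glist φ).length := by simp [red]

theorem entry_red (φ : F3) (u v : ℕ) (hu : u < (glist φ).length) (hv : v < (glist φ).length) :
    (red φ).entry u v = decide (adjD φ (glist φ)[u] (glist φ)[v]) := by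
  unfold Mat.entry red
  simp [List.getD, hu, hv]

theorem adjD_comm {φ : F3} {a b : D} (ha : a ∈ glist φ) (hb : b ∈ glist φ) :
    adjD φ a b ↔ adjD φ b a := by
  rw [adjD_iff ha hb, adjD_iff hb ha]
  exact ⟨adj_symm _, adj_symm _⟩

theorem adjD_irr {φ : F3} {a : D} (ha : a ∈ glist φ) : ¬ adjD φ a a := by
  obtain ⟨ta, ia, ja, la⟩ := a
  have h1 := tag_cases ha
  simp only at h1
  have := neg_ne la
  rcases h1 with rfl | rfl | rfl <;> simp [adjD, Ne.symm this]

section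

variable (φ : F3)

/-- the vertex with number `v` -/
def dv (v : Fin (red φ).length) : Vx :=
  toVx ((glist φ)[(v : ℕ)]'(length_red φ ▸ v.2))

theorem dv_inj (hφ : Nice φ) : Function.Injective (dv φ) := by
  intro u v h
  unfold dv at h
  have := toVx_inj (List.getElem_mem _) (List.getElem_mem _) h
  exact Fin.ext ((List.Nodup.getElem_inj_iff (nodup_glist hφ)).1 this)

theorem dv_ex (hφ : Nice φ) {x : Vx} (hx : Mem (ext φ).length (InC φ) x) : ∃ v, dv φ v = x := by
  obtain ⟨a, ha, rfl⟩ := exists_toVx hφ hx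
  obtain ⟨i, hi, h⟩ := List.getElem_of_mem ha
  refine ⟨⟨i, by rw [length_red]; exact hi⟩, ?_⟩
  unfold dv
  simp only
  rw [h]

theorem dv_adj (u v : Fin (red φ).length) :
    (red φ).graph.Adj u v ↔ adj (InC φ) (dv φ u) (dv φ v) := by
  have hu : (u : ℕ) < (glist φ).length := by rw [← length_red]; exact u.2
  have hv : (v : ℕ) < (glist φ).length := by rw [← length_red]; exact v.2
  unfold Mat.graph dv
  rw [SimpleGraph.fromRel_adj, entry_red φ _ _ hu hv, entry_red φ _ _ hv hu, decide_eq_true_eq,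
    decide_eq_true_eq, adjD_comm (List.getElem_mem hv) (List.getElem_mem hu), or_self,
    adjD_iff (List.getElem_mem hu) (List.getElem_mem hv)]
  constructor
  · exact fun h => h.2
  · intro h
    refine ⟨?_, h⟩
    rintro rfl
    exact adjD_irr (List.getElem_mem hu) ((adjD_iff (List.getElem_mem hu) (List.getElem_mem hu)).2 h)

theorem red_correct (hφ : Nice φ) : IsSat3 φ ↔ ¬ Equistable (red φ).graph := by
  have hmem : ∀ v, Mem (ext φ).length (InC φ) (dv φ v) :=
    fun v => mem_toVx hφ (List.getElem_mem _)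
  have hex : ∀ x, Mem (ext φ).length (InC φ) x → ∃ v, dv φ v = x := fun x hx => dv_ex φ hφ hx
  obtain ⟨h0, h1, hno⟩ := two_clauses φ
  have : Nonempty (Fin (red φ).length) := by
    obtain ⟨v, _⟩ := hex (cl 0) h0
    exact ⟨v⟩
  rw [← sat_iff]
  constructor
  · rintro ⟨τ, hτ⟩
    exact not_equistable_of_sat (dv_inj φ hφ) hmem hex (dv_adj φ) hτ (neg_occurs hφ) h0 h1
      (by decide) hno
  · intro h
    by_contra hun
    exact h (equistable_of_unsat (dv_inj φ hφ) hmem hex (dv_adj φ) hun (nt hφ) (neg_occurs hφ))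

theorem red_valid : (red φ).Valid := by
  refine ⟨?_, ?_, ?_⟩
  · intro row hrow
    unfold red at hrow
    rw [List.mem_map] at hrow
    obtain ⟨a, _, rfl⟩ := hrow
    rw [length_red, List.length_map]
  · intro u hu v hv
    rw [length_red] at hu hv
    rw [entry_red φ u v hu hv, entry_red φ v u hv hu, decide_eq_decide]
    exact adjD_comm (List.getElem_mem hu) (List.getElem_mem hv)
  · intro u hu
    rw [length_red] at hu
    rw [entry_red φ u u hu hu, decide_eq_false_iff_not]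
    exact adjD_irr (List.getElem_mem hu)

end

end Pool.Agent.H586R2.EQ
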