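import Mathlib
import Pool.Agent.H586R2.EQ.Red
import Pool.Agent.NPC.Sat

set_option autoImplicit false
set_option linter.unusedSectionVars false

namespace Pool.Agent.H586R2.EQ

open Pool.Agent.NPC

theorem tri_poly : NPC.Poly tri :=
  NPC.Poly.append (NPC.Poly.append NPC.Poly.id NPC.Poly.id) NPC.Poly.id

theorem R1_poly : NPC.Poly (fun φ : F3 => List.range (tri φ).length) :=
  NPC.Poly.range_length tri_poly

theorem R2_poly : NPC.Poly (fun φ : F3 => List.range ((tri φ).length + 2)) :=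
  (NPC.Poly.range_length (NPC.Poly.cons (NPC.Poly.const ((false, 0), (false, 0), (false, 0)))
    (NPC.Poly.cons (NPC.Poly.const ((false, 0), (false, 0), (false, 0))) tri_poly))).congr
    (fun φ => by rw [List.length_cons, List.length_cons])

section Aux

variable {α : Type} [TEnc α]

theorem two_poly {β : Type} [TEnc β] {f g : α → β} (hf : NPC.Poly f) (hg : NPC.Poly g) :
    NPC.Poly (fun a => [f a, g a]) :=
  NPC.Poly.cons hf (NPC.Poly.cons hg (NPC.Poly.const []))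

theorem three_poly {β : Type} [TEnc β] {f g h : α → β} (hf : NPC.Poly f) (hg : NPC.Poly g)
    (hh : NPC.Poly h) : NPC.Poly (fun a => [f a, g a, h a]) :=
  NPC.Poly.cons hf (two_poly hg hh)

end Aux

theorem ext_poly : NPC.Poly ext := by
  unfold ext
  refine NPC.Poly.append (NPC.Poly.append (NPC.Poly.const _) ?_) ?_
  · refine NPC.Poly.flatMap (F := fun (_ : F3) (v : ℕ) =>
      [[(true, v + 2), (true, 0)], [(false, v + 2), (true, 0)]]) R1_poly ?_
    have hv : NPC.Poly (fun p : F3 × ℕ => p.2 + 2) :=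
      NPC.Poly.add (NPC.Poly.snd NPC.Poly.id) (NPC.Poly.const 2)
    exact two_poly (two_poly (NPC.Poly.pair (NPC.Poly.const true) hv) (NPC.Poly.const _))
      (two_poly (NPC.Poly.pair (NPC.Poly.const false) hv) (NPC.Poly.const _))
  · refine NPC.Poly.map (F := fun (_ : F3) (c : (Bool × ℕ) × (Bool × ℕ) × (Bool × ℕ)) =>
      [(c.1.1, c.1.2 + 2), (c.2.1.1, c.2.1.2 + 2), (c.2.2.1, c.2.2.2 + 2)]) NPC.Poly.id ?_
    have hc : NPC.Poly (fun p : F3 × ((Bool × ℕ) × (Bool × ℕ) × (Bool × ℕ)) => p.2) :=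
      NPC.Poly.snd NPC.Poly.id
    have sh : ∀ {f : F3 × ((Bool × ℕ) × (Bool × ℕ) × (Bool × ℕ)) → Bool × ℕ}, NPC.Poly f →
        NPC.Poly (fun p => ((f p).1, (f p).2 + 2)) := fun hf =>
      NPC.Poly.pair (NPC.Poly.fst hf) (NPC.Poly.add (NPC.Poly.snd hf) (NPC.Poly.const 2))
    exact three_poly (sh (NPC.Poly.fst hc)) (sh (NPC.Poly.fst (NPC.Poly.snd hc)))
      (sh (NPC.Poly.snd (NPC.Poly.snd hc)))

section Rel

variable {α : Type} [TEnc α]

theorem neg_poly {l : α → Bool × ℕ} (hl : NPC.Poly l) : NPC.Poly (fun a => neg (l a)) := by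
  unfold neg
  exact NPC.Poly.pair (NPC.Poly.not (NPC.Poly.fst hl)) (NPC.Poly.snd hl)

theorem inC_poly {φ : α → F3} {j : α → ℕ} {l : α → Bool × ℕ} (hφ : NPC.Poly φ) (hj : NPC.Poly j)
    (hl : NPC.Poly l) : NPC.Poly (fun a => decide (InC (φ a) (j a) (l a))) := by
  refine (NPC.Poly.decide_mem hl (NPC.Poly.getD (ext_poly.comp hφ) hj (NPC.Poly.const []))).congr ?_
  intro a
  rw [decide_eq_decide]
  exact Iff.rfl

theorem adjD_poly {φ : α → F3} {x y : α → D} (hφ : NPC.Poly φ) (hx : NPC.Poly x)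
    (hy : NPC.Poly y) : NPC.Poly (fun a => decide (adjD (φ a) (x a) (y a))) := by
  have x1 := NPC.Poly.fst hx
  have x2 := NPC.Poly.fst (NPC.Poly.snd hx)
  have x4 := NPC.Poly.snd (NPC.Poly.snd (NPC.Poly.snd hx))
  have y1 := NPC.Poly.fst hy
  have y2 := NPC.Poly.fst (NPC.Poly.snd hy)
  have y4 := NPC.Poly.snd (NPC.Poly.snd (NPC.Poly.snd hy))
  have c : ∀ n : ℕ, NPC.Poly (fun _ : α => n) := fun n => NPC.Poly.const n
  refine (NPC.Poly.decide_or
    (NPC.Poly.decide_and (NPC.Poly.decide_eq x1 (c 0)) (NPC.Poly.decide_and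
      (NPC.Poly.decide_eq y1 (c 0)) (NPC.Poly.decide_eq y4 (neg_poly x4))))
    (NPC.Poly.decide_or
    (NPC.Poly.decide_and (NPC.Poly.decide_eq x1 (c 0)) (NPC.Poly.decide_and
      (NPC.Poly.decide_eq y1 (c 1)) (inC_poly hφ y2 x4)))
    (NPC.Poly.decide_or
    (NPC.Poly.decide_and (NPC.Poly.decide_eq x1 (c 1)) (NPC.Poly.decide_and
      (NPC.Poly.decide_eq y1 (c 0)) (inC_poly hφ x2 y4)))
    (NPC.Poly.decide_or
    (NPC.Poly.decide_and (NPC.Poly.decide_eq x1 (c 1)) (NPC.Poly.decide_and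
      (NPC.Poly.decide_eq y1 (c 1)) (NPC.Poly.decide_not (NPC.Poly.decide_eq x2 y2))))
    (NPC.Poly.decide_or
    (NPC.Poly.decide_and (NPC.Poly.decide_eq x1 (c 2)) (NPC.Poly.decide_and
      (NPC.Poly.decide_eq y1 (c 1)) (NPC.Poly.decide_not (NPC.Poly.decide_eq y2 x2))))
    (NPC.Poly.decide_or
    (NPC.Poly.decide_and (NPC.Poly.decide_eq x1 (c 1)) (NPC.Poly.decide_and
      (NPC.Poly.decide_eq y1 (c 2)) (NPC.Poly.decide_not (NPC.Poly.decide_eq x2 y2))))
    (NPC.Poly.decide_or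
    (NPC.Poly.decide_and (NPC.Poly.decide_eq x1 (c 2)) (NPC.Poly.decide_and
      (NPC.Poly.decide_eq y1 (c 0)) (NPC.Poly.decide_or (NPC.Poly.decide_eq y4 x4)
        (inC_poly hφ x2 y4))))
    (NPC.Poly.decide_or
    (NPC.Poly.decide_and (NPC.Poly.decide_eq x1 (c 0)) (NPC.Poly.decide_and
      (NPC.Poly.decide_eq y1 (c 2)) (NPC.Poly.decide_or (NPC.Poly.decide_eq x4 y4)
        (inC_poly hφ y2 x4))))
    (NPC.Poly.decide_and (NPC.Poly.decide_eq x1 (c 2)) (NPC.Poly.decide_and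
      (NPC.Poly.decide_eq y1 (c 2)) (NPC.Poly.decide_or
        (NPC.Poly.decide_not (NPC.Poly.decide_eq x2 y2))
        (NPC.Poly.decide_eq y4 (neg_poly x4))))))))))))).congr ?_
  intro a
  rw [decide_eq_decide]
  exact Iff.rfl

end Rel

theorem glist_poly : NPC.Poly glist := by
  unfold glist
  have hR : NPC.Poly (fun φ : F3 => List.range (ext φ).length) := NPC.Poly.range_length ext_poly
  refine NPC.Poly.append (NPC.Poly.append ?_ ?_) ?_
  · refine NPC.Poly.flatMap (F := fun (_ : F3) (v : ℕ) =>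
      [((0, 0, 0, (false, v)) : D), (0, 0, 0, (true, v))]) R2_poly ?_
    have hv : ∀ b : Bool, NPC.Poly (fun p : F3 × ℕ => ((0, 0, 0, (b, p.2)) : D)) := fun b =>
      NPC.Poly.pair (NPC.Poly.const 0) (NPC.Poly.pair (NPC.Poly.const 0)
        (NPC.Poly.pair (NPC.Poly.const 0) (NPC.Poly.pair (NPC.Poly.const b)
          (NPC.Poly.snd NPC.Poly.id))))
    exact two_poly (hv false) (hv true)
  · refine NPC.Poly.map (F := fun (_ : F3) (i : ℕ) => ((1, i, 0, (false, 0)) : D)) hR ?_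
    exact NPC.Poly.pair (NPC.Poly.const 1) (NPC.Poly.pair (NPC.Poly.snd NPC.Poly.id)
      (NPC.Poly.const _))
  · refine NPC.Poly.flatMap (F := fun (φ : F3) (i : ℕ) => (List.range (ext φ).length).flatMap
      (fun j => (((ext φ).getD j []).filter (fun l => decide (i ≠ j ∧ ¬ InC φ i (neg l)))).map
        (fun l => ((2, i, j, l) : D)))) hR ?_
    refine NPC.Poly.flatMap (F := fun (p : F3 × ℕ) (j : ℕ) =>
      (((ext p.1).getD j []).filter (fun l => decide (p.2 ≠ j ∧ ¬ InC p.1 p.2 (neg l)))).map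
        (fun l => ((2, p.2, j, l) : D))) (hR.comp (NPC.Poly.fst NPC.Poly.id)) ?_
    refine NPC.Poly.map (F := fun (p : (F3 × ℕ) × ℕ) (l : Bool × ℕ) => ((2, p.1.2, p.2, l) : D))
      ?_ ?_
    · refine NPC.Poly.filter (p := fun (p : (F3 × ℕ) × ℕ) (l : Bool × ℕ) =>
        decide (p.1.2 ≠ p.2 ∧ ¬ InC p.1.1 p.1.2 (neg l))) ?_ ?_
      · exact NPC.Poly.getD (ext_poly.comp (NPC.Poly.fst (NPC.Poly.fst NPC.Poly.id)))
          (NPC.Poly.snd NPC.Poly.id) (NPC.Poly.const [])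
      · have h1 : NPC.Poly (fun q : ((F3 × ℕ) × ℕ) × (Bool × ℕ) => q.1.1.1) :=
          NPC.Poly.fst (NPC.Poly.fst (NPC.Poly.fst NPC.Poly.id))
        have h2 : NPC.Poly (fun q : ((F3 × ℕ) × ℕ) × (Bool × ℕ) => q.1.1.2) :=
          NPC.Poly.snd (NPC.Poly.fst (NPC.Poly.fst NPC.Poly.id))
        have h3 : NPC.Poly (fun q : ((F3 × ℕ) × ℕ) × (Bool × ℕ) => q.1.2) :=
          NPC.Poly.snd (NPC.Poly.fst NPC.Poly.id)
        have h4 : NPC.Poly (fun q : ((F3 × ℕ) × ℕ) × (Bool × ℕ) => q.2) :=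
          NPC.Poly.snd NPC.Poly.id
        exact NPC.Poly.decide_and (NPC.Poly.decide_not (NPC.Poly.decide_eq h2 h3))
          (NPC.Poly.decide_not (inC_poly h1 h2 (neg_poly h4)))
    · exact NPC.Poly.pair (NPC.Poly.const 2) (NPC.Poly.pair
        (NPC.Poly.snd (NPC.Poly.fst (NPC.Poly.fst NPC.Poly.id))) (NPC.Poly.pair
          (NPC.Poly.snd (NPC.Poly.fst NPC.Poly.id)) (NPC.Poly.snd NPC.Poly.id)))

theorem red_poly : NPC.Poly red := by
  unfold red
  refine NPC.Poly.map (F := fun (φ : F3) (a : D) =>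
    (glist φ).map (fun b => decide (adjD φ a b))) glist_poly ?_
  refine NPC.Poly.map (F := fun (p : F3 × D) (b : D) => decide (adjD p.1 p.2 b))
    (glist_poly.comp (NPC.Poly.fst NPC.Poly.id)) ?_
  exact adjD_poly (NPC.Poly.fst (NPC.Poly.fst NPC.Poly.id)) (NPC.Poly.snd (NPC.Poly.fst NPC.Poly.id))
    (NPC.Poly.snd NPC.Poly.id)

theorem index_lt {V : Type} {l : List V} {v : V} (h : v ∈ l) : index l v < l.length := by
  have := getElem?_index h
  by_contra hcon
  rw [List.getElem?_eq_none (not_lt.1 hcon)] at this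
  exact absurd this (by simp)

theorem length_vars3 (φ : F3) : (vars3 φ).length = 3 * φ.length := by
  unfold vars3
  rw [List.length_flatMap]
  simp [Nat.mul_comm]

theorem nice_ren {φ : F3} (h : Distinct3 φ) : Nice (ren3 φ) := by
  have hlen : (ren3 φ).length = φ.length := by unfold ren3; rw [List.length_map]
  intro c hc
  refine ⟨ren3_distinct h c hc, ?_⟩
  rw [hlen, ← length_vars3]
  unfold ren3 at hc
  rw [List.mem_map] at hc
  obtain ⟨d, hd, rfl⟩ := hc
  obtain ⟨h1, h2, h3⟩ := mem_vars3 hd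
  exact ⟨index_lt h1, index_lt h2, index_lt h3⟩

/-- 3SAT for nice formulas is hard. -/
theorem hardPr_nice : HardPr Nice IsSat3 :=
  hardPr_SAT3.trans (f := ren3 (V := ℕ)) ren3_poly (fun _ h => nice_ren h)
    (fun φ _ => ren3_sat φ)

theorem hardPr_eq : HardPr Mat.Valid (fun M : Mat => ¬ Equistable M.graph) :=
  hardPr_nice.trans red_poly (fun φ _ => red_valid φ) (fun φ h => red_correct φ h)

end Pool.Agent.H586R2.EQ
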